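import Mathlib

set_option autoImplicit false

open Finset MeasureTheory ProbabilityTheory

namespace Pool.Agent.Results.MP_9c491c_pr.HalfRange

noncomputable section

/-! ### Finite product weights -/

variable {ι : Type} [DecidableEq ι]

/-- The probability that a random subset of `s` (independent inclusions with probabilities `u i`)
equals `T`. -/
def W (u : ι → ℝ) (s T : Finset ι) : ℝ := (∏ i ∈ T, u i) * ∏ i ∈ s \ T, (1 - u i)

lemma sum_W (u : ι → ℝ) (s : Finset ι) : ∑ T ∈ s.powerset, W u s T = 1 := by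
  unfold W
  rw [← Finset.prod_add]
  simp

lemma W_nonneg {u : ι → ℝ} (h0 : ∀ i, 0 ≤ u i) (h1 : ∀ i, u i ≤ 1) (s T : Finset ι) :
    0 ≤ W u s T :=
  mul_nonneg (Finset.prod_nonneg fun i _ => h0 i)
    (Finset.prod_nonneg fun i _ => by linarith [h1 i])

lemma W_insert (u : ι → ℝ) {s : Finset ι} {j : ι} {T : Finset ι}
    (hT : T ⊆ s.erase j) : W u s (insert j T) = u j * W u (s.erase j) T := by
  have hjT : j ∉ T := fun h => by simpa using hT h
  unfold W
  rw [Finset.prod_insert hjT]
  have : s \ insert j T = s.erase j \ T := by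
    ext i
    simp only [Finset.mem_sdiff, Finset.mem_insert, Finset.mem_erase, not_or]
    tauto
  rw [this]
  ring

lemma sum_mem (F : Finset ι → ℝ) {s : Finset ι} {j : ι} (hj : j ∈ s) :
    ∑ T ∈ s.powerset, (if j ∈ T then F T else 0)
      = ∑ T ∈ (s.erase j).powerset, F (insert j T) := by
  have hs : s = insert j (s.erase j) := (Finset.insert_erase hj).symm
  conv_lhs => rw [hs]
  rw [Finset.sum_powerset_insert (by simp)]
  have h1 : ∑ t ∈ (s.erase j).powerset, (if j ∈ t then F t else 0) = 0 := by
    refine Finset.sum_eq_zero fun T hT => ?_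
    have : j ∉ T := fun h => by simpa using (Finset.mem_powerset.mp hT) h
    simp [this]
  rw [h1, zero_add]
  refine Finset.sum_congr rfl fun T _ => by simp

lemma sum_mem_W (u : ι → ℝ) (F : Finset ι → ℝ) {s : Finset ι} {j : ι} (hj : j ∈ s) :
    ∑ T ∈ s.powerset, (if j ∈ T then F T * W u s T else 0)
      = u j * ∑ T ∈ (s.erase j).powerset, F (insert j T) * W u (s.erase j) T := by
  rw [sum_mem (fun T => F T * W u s T) hj, Finset.mul_sum]
  refine Finset.sum_congr rfl fun T hT => ?_
  rw [W_insert u (Finset.mem_powerset.mp hT)]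
  ring

lemma mean_W (u : ι → ℝ) (a : ι → ℝ) (s : Finset ι) :
    ∑ T ∈ s.powerset, (∑ i ∈ T, a i) * W u s T = ∑ i ∈ s, a i * u i := by
  have h1 : ∀ T ∈ s.powerset, (∑ i ∈ T, a i) * W u s T
      = ∑ i ∈ s, (if i ∈ T then a i * W u s T else 0) := by
    intro T hT
    rw [Finset.sum_mul, ← Finset.sum_filter]
    have : s.filter (fun i => i ∈ T) = T := by
      ext i
      simp only [Finset.mem_filter]
      exact ⟨fun h => h.2, fun h => ⟨(Finset.mem_powerset.mp hT) h, h⟩⟩
    rw [this]
  rw [Finset.sum_congr rfl h1, Finset.sum_comm]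
  refine Finset.sum_congr rfl fun j hj => ?_
  rw [sum_mem_W u (fun _ => a j) hj, ← Finset.mul_sum, sum_W]
  ring

/-- first two orders of a product of sums -/
lemma prod_add_ge (x y : ι → ℝ) (hx : ∀ i, 0 ≤ x i) (hy : ∀ i, 0 ≤ y i) (T : Finset ι) :
    (∏ i ∈ T, x i) + ∑ j ∈ T, y j * ∏ i ∈ T.erase j, x i ≤ ∏ i ∈ T, (x i + y i) := by
  induction T using Finset.induction_on with
  | empty => simp
  | insert k T hk ih =>
    rw [Finset.prod_insert hk, Finset.prod_insert hk, Finset.sum_insert hk,
      Finset.erase_insert hk]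
    have h1 : ∑ j ∈ T, y j * ∏ i ∈ (insert k T).erase j, x i
        = x k * ∑ j ∈ T, y j * ∏ i ∈ T.erase j, x i := by
      rw [Finset.mul_sum]
      refine Finset.sum_congr rfl fun j hj => ?_
      have hjk : j ≠ k := fun h => hk (h ▸ hj)
      have : (insert k T).erase j = insert k (T.erase j) := by
        ext i
        simp only [Finset.mem_erase, Finset.mem_insert]
        constructor
        · rintro ⟨h1, h2 | h2⟩
          · exact Or.inl h2
          · exact Or.inr ⟨h1, h2⟩
        · rintro (h | ⟨h1, h2⟩)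
          · exact ⟨by rw [h]; exact hjk.symm, Or.inl h⟩
          · exact ⟨h1, Or.inr h2⟩
      rw [this, Finset.prod_insert (by simp [hk])]
      ring
    rw [h1]
    have hP : 0 ≤ ∏ i ∈ T, x i := Finset.prod_nonneg fun i _ => hx i
    have hS : 0 ≤ ∑ j ∈ T, y j * ∏ i ∈ T.erase j, x i :=
      Finset.sum_nonneg fun j _ => mul_nonneg (hy j) (Finset.prod_nonneg fun i _ => hx i)
    nlinarith [mul_le_mul_of_nonneg_left ih (hx k), mul_le_mul_of_nonneg_left ih (hy k),
      mul_nonneg (hy k) hS]

/-! ### The main inequality -/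

lemma main_ineq [Fintype ι] (a θ : ι → ℝ) (ha : ∀ i, 0 < a i) (hθ : ∀ i, 0 ≤ θ i)
    (ht : ∑ i, θ i ≤ 1 / 2) :
    Real.exp (-∑ i, θ i) ≤ ∑ T ∈ (univ : Finset ι).powerset,
      (if ∑ i ∈ T, a i < 1 then W (fun i => 1 - Real.exp (-(θ i / a i))) univ T else 0) := by
  classical
  set u : ι → ℝ := fun i => if a i < 1 then 1 - Real.exp (-(θ i * (1 - a i) / a i)) else 0 with hu
  set v : ι → ℝ := fun i => if a i < 1 then Real.exp (-θ i) else Real.exp (-(θ i / a i)) with hv
  set D : ι → ℝ := fun i => if a i < 1 then 1 - a i else 0 with hD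
  set r : ι → ℝ := fun i => (1 - v i) / v i with hr
  have hu0 : ∀ i, 0 ≤ u i := by
    intro i
    simp only [hu]
    split_ifs with h
    · have : Real.exp (-(θ i * (1 - a i) / a i)) ≤ 1 := by
        apply Real.exp_le_one_iff.mpr
        have : 0 ≤ θ i * (1 - a i) / a i :=
          div_nonneg (mul_nonneg (hθ i) (by linarith)) (ha i).le
        linarith
      linarith
    · exact le_refl _
  have hu1 : ∀ i, u i ≤ 1 := by
    intro i
    simp only [hu]
    split_ifs with h
    · linarith [Real.exp_pos (-(θ i * (1 - a i) / a i))]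
    · norm_num
  have hv0 : ∀ i, 0 < v i := by
    intro i; simp only [hv]; split_ifs <;> exact Real.exp_pos _
  have hv1 : ∀ i, v i ≤ 1 := by
    intro i
    simp only [hv]
    split_ifs with h
    · exact Real.exp_le_one_iff.mpr (by linarith [hθ i])
    · exact Real.exp_le_one_iff.mpr (by linarith [div_nonneg (hθ i) (ha i).le])
  have hvθ : ∀ i, Real.exp (-θ i) ≤ v i := by
    intro i
    simp only [hv]
    split_ifs with h
    · exact le_refl _
    · apply Real.exp_le_exp.mpr
      have : θ i / a i ≤ θ i := div_le_self (hθ i) (by linarith [not_lt.mp h])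
      linarith
  have hβ : ∀ i, Real.exp (-(θ i / a i)) = (1 - u i) * v i := by
    intro i
    simp only [hu, hv]
    split_ifs with h
    · rw [show (1 : ℝ) - (1 - Real.exp (-(θ i * (1 - a i) / a i)))
        = Real.exp (-(θ i * (1 - a i) / a i)) by ring, ← Real.exp_add]
      congr 1
      have := (ha i).ne'
      field_simp
      ring
    · ring
  have hr0 : ∀ i, 0 ≤ r i := fun i => div_nonneg (by linarith [hv1 i]) (hv0 i).le
  have hD0 : ∀ i, 0 ≤ D i := by
    intro i; simp only [hD]; split_ifs with h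
    · linarith
    · exact le_refl _
  have hrD : ∀ i, θ i * D i ≤ r i := by
    intro i
    by_cases h : a i < 1
    · have hv' : v i = Real.exp (-θ i) := by simp [hv, h]
      have hD' : D i = 1 - a i := by simp [hD, h]
      have : θ i ≤ r i := by
        simp only [hr]
        rw [hv', le_div_iff₀ (Real.exp_pos _)]
        have h1 : θ i + 1 ≤ Real.exp (θ i) := Real.add_one_le_exp _
        have h2 : Real.exp (θ i) * Real.exp (-θ i) = 1 := by
          rw [← Real.exp_add]; simp
        nlinarith [Real.exp_pos (-θ i), mul_le_mul_of_nonneg_right h1 (Real.exp_pos (-θ i)).le]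
      refine le_trans ?_ this
      rw [hD']
      nlinarith [hθ i, ha i]
    · have hD' : D i = 0 := by simp [hD, h]
      rw [hD', mul_zero]
      exact hr0 i
  have hau : ∀ i, a i * u i ≤ θ i * D i := by
    intro i
    by_cases h : a i < 1
    · have hu' : u i = 1 - Real.exp (-(θ i * (1 - a i) / a i)) := by simp [hu, h]
      have hD' : D i = 1 - a i := by simp [hD, h]
      have h1 : -(θ i * (1 - a i) / a i) + 1 ≤ Real.exp (-(θ i * (1 - a i) / a i)) :=
        Real.add_one_le_exp _
      have h2 : u i ≤ θ i * (1 - a i) / a i := by rw [hu']; linarith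
      have h3 := mul_le_mul_of_nonneg_left h2 (ha i).le
      rw [hD']
      refine h3.trans (le_of_eq ?_)
      have := (ha i).ne'
      field_simp
    · have hu' : u i = 0 := by simp [hu, h]
      rw [hu', mul_zero]
      exact mul_nonneg (hθ i) (hD0 i)
  set μ : ℝ := ∑ i, a i * u i with hμ
  set Q : ℝ := ∑ i, θ i * D i with hQ
  have hμQ : μ ≤ Q := Finset.sum_le_sum fun i _ => hau i
  have hQ0 : 0 ≤ Q := Finset.sum_nonneg fun i _ => mul_nonneg (hθ i) (hD0 i)
  have hμ0 : 0 ≤ μ := Finset.sum_nonneg fun i _ => mul_nonneg (ha i).le (hu0 i)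
  have ha0 : ∀ T : Finset ι, 0 ≤ ∑ i ∈ T, a i := fun T => Finset.sum_nonneg fun i _ => (ha i).le
  set x : ι → ℝ := fun j => ∑ T ∈ ((univ : Finset ι).erase j).powerset,
    (if 1 ≤ a j + ∑ i ∈ T, a i then W u (univ.erase j) T else 0) with hx
  set y : ι → ℝ := fun j => ∑ T ∈ ((univ : Finset ι).erase j).powerset,
    (if a j + ∑ i ∈ T, a i < 1 then W u (univ.erase j) T else 0) with hy
  have hWn : ∀ s T, 0 ≤ W u s T := fun s T => W_nonneg hu0 hu1 s T
  have hxy : ∀ j, x j + y j = 1 := by
    intro j
    simp only [hx, hy]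
    rw [← Finset.sum_add_distrib]
    refine Eq.trans (Finset.sum_congr rfl fun T _ => ?_) (sum_W u (univ.erase j))
    by_cases h : 1 ≤ a j + ∑ i ∈ T, a i
    · simp [h, not_lt.mpr h]
    · simp [h, not_le.mp h]
  have hx0 : ∀ j, 0 ≤ x j := fun j => Finset.sum_nonneg fun T _ => by
    split_ifs
    · exact hWn _ _
    · exact le_refl _
  have hDx : ∀ j, D j * x j ≤ μ := by
    intro j
    by_cases h : a j < 1
    · have hD' : D j = 1 - a j := by simp [hD, h]
      rw [hD']
      simp only [hx]
      rw [Finset.mul_sum]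
      calc ∑ T ∈ ((univ : Finset ι).erase j).powerset, (1 - a j) *
            (if 1 ≤ a j + ∑ i ∈ T, a i then W u (univ.erase j) T else 0)
          ≤ ∑ T ∈ ((univ : Finset ι).erase j).powerset,
            (∑ i ∈ T, a i) * W u (univ.erase j) T := by
            refine Finset.sum_le_sum fun T _ => ?_
            split_ifs with h1
            · exact mul_le_mul_of_nonneg_right (by linarith) (hWn _ _)
            · rw [mul_zero]
              exact mul_nonneg (ha0 T) (hWn _ _)
        _ = ∑ i ∈ (univ : Finset ι).erase j, a i * u i := mean_W u a _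
        _ ≤ μ := Finset.sum_le_sum_of_subset_of_nonneg (Finset.erase_subset _ _)
            fun i _ _ => mul_nonneg (ha i).le (hu0 i)
    · have hD' : D j = 0 := by simp [hD, h]
      rw [hD', zero_mul]
      exact hμ0
  set Y : ℝ := ∑ j, θ j * (D j * x j) with hY
  have hYQ : 2 * Y ≤ Q := by
    have h1 : Y ≤ (∑ j, θ j) * μ := by
      rw [Finset.sum_mul]
      exact Finset.sum_le_sum fun j _ => mul_le_mul_of_nonneg_left (hDx j) (hθ j)
    have h2 : (∑ j, θ j) * μ ≤ 1 / 2 * Q := by
      calc (∑ j, θ j) * μ ≤ 1 / 2 * μ := mul_le_mul_of_nonneg_right ht hμ0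
        _ ≤ 1 / 2 * Q := by linarith
    linarith
  -- the upper tail under `u`
  set PU : ℝ := ∑ T ∈ (univ : Finset ι).powerset,
    (if 1 ≤ ∑ i ∈ T, a i then W u univ T else 0) with hPU
  set PL : ℝ := ∑ T ∈ (univ : Finset ι).powerset,
    (if ∑ i ∈ T, a i < 1 then W u univ T else 0) with hPL
  have hPP : PU + PL = 1 := by
    simp only [hPU, hPL]
    rw [← Finset.sum_add_distrib]
    refine Eq.trans (Finset.sum_congr rfl fun T _ => ?_) (sum_W u univ)
    by_cases h : 1 ≤ ∑ i ∈ T, a i
    · simp [h, not_lt.mpr h]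
    · simp [h, not_le.mp h]
  have hPUY : PU ≤ Y := by
    have h1 : PU ≤ ∑ T ∈ (univ : Finset ι).powerset, ∑ j,
        (if j ∈ T then (a j * (if 1 ≤ ∑ i ∈ T, a i then 1 else 0)) * W u univ T else 0) := by
      refine Finset.sum_le_sum fun T _ => ?_
      split_ifs with h2
      · have : ∑ j, (if j ∈ T then (a j * 1) * W u univ T else 0)
            = (∑ i ∈ T, a i) * W u univ T := by
          rw [Finset.sum_mul, ← Finset.sum_filter]
          simp
        rw [this]
        calc W u univ T = 1 * W u univ T := (one_mul _).symm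
          _ ≤ _ := mul_le_mul_of_nonneg_right h2 (hWn _ _)
      · refine Finset.sum_nonneg fun j _ => ?_
        split_ifs <;> simp
    refine h1.trans ?_
    rw [Finset.sum_comm]
    refine Finset.sum_le_sum fun j _ => ?_
    rw [sum_mem_W u (fun T => a j * (if 1 ≤ ∑ i ∈ T, a i then 1 else 0)) (Finset.mem_univ j)]
    have h3 : ∑ T ∈ ((univ : Finset ι).erase j).powerset,
        (a j * (if 1 ≤ ∑ i ∈ insert j T, a i then 1 else 0)) * W u (univ.erase j) T
        = a j * x j := by
      simp only [hx]
      rw [Finset.mul_sum]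
      refine Finset.sum_congr rfl fun T hT => ?_
      have hjT : j ∉ T := fun h => by simpa using (Finset.mem_powerset.mp hT) h
      rw [Finset.sum_insert hjT]
      split_ifs <;> ring
    rw [h3]
    calc u j * (a j * x j) = (a j * u j) * x j := by ring
      _ ≤ (θ j * D j) * x j := mul_le_mul_of_nonneg_right (hau j) (hx0 j)
      _ = θ j * (D j * x j) := by ring
  have hy0 : ∀ j, 0 ≤ y j := fun j => Finset.sum_nonneg fun T _ => by
    split_ifs
    · exact hWn _ _
    · exact le_refl _
  have hry : Q - Y ≤ ∑ j, r j * y j := by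
    have : Q - Y = ∑ j, (θ j * D j) * y j := by
      rw [hQ, hY, ← Finset.sum_sub_distrib]
      refine Finset.sum_congr rfl fun j _ => ?_
      have := hxy j
      have h2 : y j = 1 - x j := by linarith
      rw [h2]; ring
    rw [this]
    exact Finset.sum_le_sum fun j _ => mul_le_mul_of_nonneg_right (hrD j) (hy0 j)
  -- expansion of the true weights
  set V : ℝ := ∏ i, v i with hVdef
  have hV0 : 0 < V := Finset.prod_pos fun i _ => hv0 i
  have hVt : Real.exp (-∑ i, θ i) ≤ V := by
    rw [← Finset.sum_neg_distrib, Real.exp_sum]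
    exact Finset.prod_le_prod (fun i _ => (Real.exp_pos _).le) fun i _ => hvθ i
  have hexp : ∀ T : Finset ι, V * (W u univ T
      + ∑ j, (if j ∈ T then r j * W u (univ.erase j) (T.erase j) else 0))
      ≤ W (fun i => 1 - Real.exp (-(θ i / a i))) univ T := by
    intro T
    have e1 : W (fun i => 1 - Real.exp (-(θ i / a i))) univ T
        = V * ((∏ i ∈ T, (u i + r i)) * ∏ i ∈ univ \ T, (1 - u i)) := by
      unfold W
      have h1 : ∏ i ∈ T, (1 - Real.exp (-(θ i / a i))) = (∏ i ∈ T, v i) * ∏ i ∈ T, (u i + r i) := by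
        rw [← Finset.prod_mul_distrib]
        refine Finset.prod_congr rfl fun i _ => ?_
        rw [hβ i]
        simp only [hr]
        have := (hv0 i).ne'
        field_simp
        ring
      have h2 : ∏ i ∈ univ \ T, (1 - (1 - Real.exp (-(θ i / a i))))
          = (∏ i ∈ univ \ T, v i) * ∏ i ∈ univ \ T, (1 - u i) := by
        rw [← Finset.prod_mul_distrib]
        refine Finset.prod_congr rfl fun i _ => ?_
        rw [hβ i]; ring
      rw [h1, h2]
      have h3 : V = (∏ i ∈ univ \ T, v i) * ∏ i ∈ T, v i :=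
        (Finset.prod_sdiff (Finset.subset_univ T)).symm
      rw [h3]; ring
    rw [e1]
    refine mul_le_mul_of_nonneg_left ?_ hV0.le
    have h4 := prod_add_ge u r hu0 hr0 T
    have hc : 0 ≤ ∏ i ∈ univ \ T, (1 - u i) := Finset.prod_nonneg fun i _ => by linarith [hu1 i]
    have h5 := mul_le_mul_of_nonneg_right h4 hc
    refine le_trans (le_of_eq ?_) h5
    rw [add_mul, Finset.sum_mul]
    congr 1
    rw [← Finset.sum_filter]
    have hfil : (univ : Finset ι).filter (fun j => j ∈ T) = T := by ext; simp
    rw [hfil]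
    refine Finset.sum_congr rfl fun j hj => ?_
    unfold W
    have : (univ : Finset ι).erase j \ T.erase j = univ \ T := by
      ext i
      simp only [Finset.mem_sdiff, Finset.mem_erase, Finset.mem_univ, and_true, true_and, not_and]
      constructor
      · rintro ⟨h1, h2⟩; exact h2 h1
      · intro h; exact ⟨fun h' => h (h' ▸ hj), fun _ => h⟩
    rw [this]; ring
  -- conclusion
  have hfinal : V * (PL + ∑ j, r j * y j) ≤ ∑ T ∈ (univ : Finset ι).powerset,
      (if ∑ i ∈ T, a i < 1 then W (fun i => 1 - Real.exp (-(θ i / a i))) univ T else 0) := by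
    have h1 : ∑ T ∈ (univ : Finset ι).powerset, (if ∑ i ∈ T, a i < 1 then
        V * (W u univ T + ∑ j, (if j ∈ T then r j * W u (univ.erase j) (T.erase j) else 0)) else 0)
        = V * (PL + ∑ j, r j * y j) := by
      have h2 : ∀ T ∈ (univ : Finset ι).powerset, (if ∑ i ∈ T, a i < 1 then
        V * (W u univ T + ∑ j, (if j ∈ T then r j * W u (univ.erase j) (T.erase j) else 0)) else 0)
        = V * (if ∑ i ∈ T, a i < 1 then W u univ T else 0) + V * ∑ j, (if j ∈ T then
          (if ∑ i ∈ T, a i < 1 then r j * W u (univ.erase j) (T.erase j) else 0) else 0) := by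
        intro T _
        split_ifs with h
        · ring
        · simp
      rw [Finset.sum_congr rfl h2, Finset.sum_add_distrib, ← Finset.mul_sum, ← Finset.mul_sum,
        Finset.sum_comm, ← mul_add]
      congr 2
      refine Finset.sum_congr rfl fun j _ => ?_
      rw [sum_mem (fun T => if ∑ i ∈ T, a i < 1 then r j * W u (univ.erase j) (T.erase j) else 0)
        (Finset.mem_univ j)]
      simp only [hy]
      rw [Finset.mul_sum]
      refine Finset.sum_congr rfl fun T hT => ?_
      have hjT : j ∉ T := fun h => by simpa using (Finset.mem_powerset.mp hT) h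
      rw [Finset.sum_insert hjT, Finset.erase_insert hjT]
      split_ifs <;> ring
    rw [← h1]
    refine Finset.sum_le_sum fun T _ => ?_
    split_ifs
    · exact hexp T
    · exact le_refl _
  refine le_trans hVt (le_trans ?_ hfinal)
  have : 1 ≤ PL + ∑ j, r j * y j := by linarith
  nlinarith

/-! ### The lottery -/

/-- `Φ_t(a)`: the probability that the members with score `a_i X_i < t` together request at least
`m` tickets, where `X_1, …, X_m` are i.i.d. exponential with mean `1`. -/
def Phi (m : ℕ) (a : Fin m → ℕ) (t : ℝ) : ℝ :=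
  (Measure.pi (fun _ : Fin m => expMeasure 1)).real
    {x | m ≤ ∑ i, if (a i : ℝ) * x i < t then a i else 0}

lemma exp_singleton (c : ℝ) : expMeasure 1 {c} = 0 := by
  have : expMeasure 1 ≪ volume := by
    unfold expMeasure gammaMeasure
    exact withDensity_absolutelyContinuous _ _
  exact this (by simp)

lemma exp_Iio {c : ℝ} (hc : 0 ≤ c) : (expMeasure 1).real (Set.Iio c) = 1 - Real.exp (-c) := by
  haveI : IsProbabilityMeasure (expMeasure 1) := isProbabilityMeasure_expMeasure one_pos
  have h1 : (expMeasure 1).real (Set.Iio c) = (expMeasure 1).real (Set.Iic c) :=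
    measureReal_congr (Iio_ae_eq_Iic' (exp_singleton c))
  rw [h1, ← cdf_eq_real, cdf_expMeasure_eq one_pos]
  simp [hc]

lemma exp_Ici {c : ℝ} (hc : 0 ≤ c) : (expMeasure 1).real (Set.Ici c) = Real.exp (-c) := by
  haveI : IsProbabilityMeasure (expMeasure 1) := isProbabilityMeasure_expMeasure one_pos
  have h1 : Set.Ici c = (Set.Iio c)ᶜ := by ext; simp
  rw [h1, probReal_compl_eq_one_sub measurableSet_Iio, exp_Iio hc]
  ring

/-- **Partial answer to Q1: the range `t ≤ 1/2`.** For all `m ≥ 1`, all request vectors `a` with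
positive integer entries and all `t ∈ (0, 1/2]`, `Φ_t(a) ≤ 1 - e^{-t}`. -/
theorem result (m : ℕ) (hm : 1 ≤ m) (a : Fin m → ℕ) (ha : ∀ i, 1 ≤ a i) (t : ℝ) (ht0 : 0 < t)
    (ht : t ≤ 1 / 2) : Phi m a t ≤ 1 - Real.exp (-t) := by
  classical
  haveI : IsProbabilityMeasure (expMeasure 1) := isProbabilityMeasure_expMeasure one_pos
  have hm0 : (0 : ℝ) < m := by exact_mod_cast hm
  have ha0 : ∀ i, (0 : ℝ) < a i := fun i => by exact_mod_cast ha i
  set P : Measure (Fin m → ℝ) := Measure.pi (fun _ : Fin m => expMeasure 1) with hP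
  -- the finite inequality
  have hmain := main_ineq (fun i : Fin m => (a i : ℝ) / m) (fun _ : Fin m => t / m)
    (fun i => div_pos (ha0 i) hm0) (fun _ => (div_pos ht0 hm0).le)
    (by rw [Finset.sum_const, Finset.card_univ, Fintype.card_fin, nsmul_eq_mul,
          mul_div_cancel₀ _ hm0.ne']; exact ht)
  have hsumθ : ∑ _i : Fin m, t / m = t := by
    rw [Finset.sum_const, Finset.card_univ, Fintype.card_fin, nsmul_eq_mul,
      mul_div_cancel₀ _ hm0.ne']
  rw [hsumθ] at hmain
  have hβ : ∀ i : Fin m, t / m / ((a i : ℝ) / m) = t / a i := fun i => by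
    have := (ha0 i).ne'
    field_simp
  -- the rectangles
  set E : Finset (Fin m) → Set (Fin m → ℝ) := fun T =>
    Set.pi Set.univ (fun i => if i ∈ T then Set.Iio (t / a i) else Set.Ici (t / a i)) with hE
  have hmem : ∀ T x, x ∈ E T ↔ ∀ i, (i ∈ T ↔ (a i : ℝ) * x i < t) := by
    intro T x
    simp only [hE, Set.mem_pi, Set.mem_univ, true_implies]
    refine forall_congr' fun i => ?_
    have h1 : x i < t / a i ↔ (a i : ℝ) * x i < t := by
      rw [lt_div_iff₀ (ha0 i), mul_comm]
    by_cases h : i ∈ T
    · simp only [h, if_true, Set.mem_Iio, true_iff]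
      exact h1
    · simp only [h, if_false, Set.mem_Ici, false_iff]
      rw [← h1, not_lt]
  have hEmeas : ∀ T, MeasurableSet (E T) := by
    intro T
    refine MeasurableSet.univ_pi fun i => ?_
    split_ifs
    · exact measurableSet_Iio
    · exact measurableSet_Ici
  have hEP : ∀ T, P.real (E T)
      = W (fun i => 1 - Real.exp (-(t / m / ((a i : ℝ) / m)))) univ T := by
    intro T
    have h1 : P.real (E T) = ∏ i, (expMeasure 1).real
        (if i ∈ T then Set.Iio (t / a i) else Set.Ici (t / a i)) := by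
      simp only [hP, hE, Measure.real, Measure.pi_pi, ENNReal.toReal_prod]
    rw [h1]
    unfold W
    have h2 : ∀ i : Fin m, (expMeasure 1).real
        (if i ∈ T then Set.Iio (t / a i) else Set.Ici (t / a i))
        = if i ∈ T then (1 - Real.exp (-(t / m / ((a i : ℝ) / m))))
          else (1 - (1 - Real.exp (-(t / m / ((a i : ℝ) / m))))) := by
      intro i
      rw [hβ i]
      have hc : 0 ≤ t / a i := (div_pos ht0 (ha0 i)).le
      by_cases h : i ∈ T
      · simp only [h, if_true]; exact exp_Iio hc
      · simp only [h, if_false]; rw [exp_Ici hc]; ring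
    rw [Finset.prod_congr rfl fun i _ => h2 i, Finset.prod_ite]
    congr 1
    · refine Finset.prod_congr ?_ fun _ _ => rfl
      ext; simp
    · refine Finset.prod_congr ?_ fun _ _ => rfl
      ext; simp
  set G : Finset (Finset (Fin m)) := univ.filter (fun T => ∑ i ∈ T, (a i : ℝ) / m < 1) with hG
  have hdisj : (G : Set (Finset (Fin m))).PairwiseDisjoint E := by
    intro T _ T' _ hne
    rw [Function.onFun, Set.disjoint_left]
    intro x h1 h2
    apply hne
    ext i
    rw [(hmem T x).mp h1 i, (hmem T' x).mp h2 i]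
  have hU : P.real (⋃ T ∈ G, E T) = ∑ T ∈ G, P.real (E T) :=
    measureReal_biUnion_finset hdisj fun T _ => hEmeas T
  have hUge : Real.exp (-t) ≤ P.real (⋃ T ∈ G, E T) := by
    rw [hU]
    refine hmain.trans (le_of_eq ?_)
    rw [hG, Finset.sum_filter, Finset.powerset_univ]
    refine Finset.sum_congr rfl fun T _ => ?_
    split_ifs
    · rw [hEP]
    · rfl
  have hUmeas : MeasurableSet (⋃ T ∈ G, E T) :=
    Finset.measurableSet_biUnion G fun T _ => hEmeas T
  have hsub : {x : Fin m → ℝ | m ≤ ∑ i, if (a i : ℝ) * x i < t then a i else 0}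
      ⊆ (⋃ T ∈ G, E T)ᶜ := by
    intro x hx hmem'
    simp only [Set.mem_iUnion] at hmem'
    obtain ⟨T, hT, hxT⟩ := hmem'
    have h1 : ∑ i, (if (a i : ℝ) * x i < t then a i else 0) = ∑ i ∈ T, a i := by
      rw [← Finset.sum_filter]
      refine Finset.sum_congr ?_ fun _ _ => rfl
      ext i
      simp only [Finset.mem_filter, Finset.mem_univ, true_and]
      exact ((hmem T x).mp hxT i).symm
    have h2 : m ≤ ∑ i ∈ T, a i := by
      have := hx
      simp only [Set.mem_ofPred_eq] at this
      rwa [h1] at this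
    have h3 : ∑ i ∈ T, (a i : ℝ) / m < 1 := by
      simpa [hG] using hT
    rw [← Finset.sum_div, div_lt_one hm0] at h3
    have h4 : ((∑ i ∈ T, a i : ℕ) : ℝ) < m := by push_cast; exact h3
    have h5 : ∑ i ∈ T, a i < m := by exact_mod_cast h4
    omega
  have hle : Phi m a t ≤ P.real (⋃ T ∈ G, E T)ᶜ := measureReal_mono hsub
  rw [probReal_compl_eq_one_sub hUmeas] at hle
  linarith

end

end Pool.Agent.Results.MP_9c491c_pr.HalfRange
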